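import Pool.Agent.Helper37.RG3.Goals

set_option autoImplicit false
set_option linter.unusedSectionVars false

/-! # TDM: tree decompositions pass to minors -/

namespace Pool.Agent.Helper74.RG3

open Finset Pool.Agent.Helper37.RG3

variable {V : Type} [Fintype V] [DecidableEq V]

/-- the separation property -/
theorem sep {ι : Type} {T : SimpleGraph ι} {β : ι → Finset V} {R : V → V → Prop} {U : Finset V}
    {k l : ℕ} (h : TD T β R U k l) {s t : ι} (hst : T.Adj s t) {S : Finset V} (hS : Con R S)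
    (h1 : (S ∩ β s).Nonempty) (h2 : (S ∩ β t).Nonempty) : (S ∩ (β s ∩ β t)).Nonempty := by
  classical
  by_contra hcon
  have hno : ∀ v ∈ S, ¬ (v ∈ β s ∧ v ∈ β t) := fun v hv hh =>
    hcon ⟨v, mem_inter.2 ⟨hv, mem_inter.2 hh⟩⟩
  have hbr := (SimpleGraph.isAcyclic_iff_forall_adj_isBridge.1 h.tree.2) hst
  rw [SimpleGraph.isBridge_iff] at hbr
  set T' := T.deleteEdges {s(s, t)} with hT'
  have hclaim : ∀ v, ¬ (v ∈ β s ∧ v ∈ β t) → ∀ x y, v ∈ β x → v ∈ β y → T'.Reachable x y := by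
    intro v hv x y hx hy
    have hpre := h.conn v ⟨x, hx⟩ ⟨y, hy⟩
    let f : (T.induce {t | v ∈ β t}) →g T' :=
      { toFun := Subtype.val
        map_rel' := by
          rintro ⟨a, ha⟩ ⟨b, hb⟩ hab
          have hab' : T.Adj a b := hab
          rw [hT', SimpleGraph.deleteEdges_adj]
          refine ⟨hab', fun h3 => ?_⟩
          rw [Set.mem_singleton_iff, Sym2.eq_iff] at h3
          rcases h3 with ⟨rfl, rfl⟩ | ⟨rfl, rfl⟩
          · exact hv ⟨ha, hb⟩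
          · exact hv ⟨hb, ha⟩ }
    exact hpre.map f
  obtain ⟨x0, hx0⟩ := h1
  obtain ⟨y0, hy0⟩ := h2
  rw [mem_inter] at hx0 hy0
  set P := S.filter (fun v => ∃ x, v ∈ β x ∧ T'.Reachable s x) with hP
  obtain ⟨p, hp, q, hq, hpq⟩ := hS.2 P (filter_subset _ _)
    ⟨x0, mem_filter.2 ⟨hx0.1, s, hx0.2, SimpleGraph.Reachable.refl _⟩⟩ (by
      intro hPS
      have h3 : y0 ∈ P := by rw [hPS]; exact hy0.1
      obtain ⟨x, hx, hr⟩ := (mem_filter.1 h3).2
      exact hbr (hr.trans (hclaim y0 (hno y0 hy0.1) x t hx hy0.2)))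
  rw [mem_sdiff] at hq
  obtain ⟨hpS, x, hx, hr⟩ := mem_filter.1 hp
  obtain ⟨t', ht1, ht2⟩ := h.edge p q hpq
  exact hq.2 (mem_filter.2 ⟨hq.1, t', ht2, hr.trans (hclaim p (hno p hpS) x t' hx ht1)⟩)

theorem card_le (U' : Finset V) (B : V → Finset V)
    (hB : ∀ u ∈ U', ∀ v ∈ U', u ≠ v → Disjoint (B u) (B v)) (X : Finset V) :
    (U'.filter fun u => (B u ∩ X).Nonempty).card ≤ X.card := by
  classical
  have hch : ∀ u : V, ∃ x : V, u ∈ (U'.filter fun u => (B u ∩ X).Nonempty) → x ∈ B u ∩ X := by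
    intro u
    by_cases hu : u ∈ (U'.filter fun u => (B u ∩ X).Nonempty)
    · obtain ⟨x, hx⟩ := (mem_filter.1 hu).2
      exact ⟨x, fun _ => hx⟩
    · exact ⟨u, fun h => absurd h hu⟩
  choose f hf using hch
  refine Finset.card_le_card_of_injOn f (fun u hu => (mem_inter.1 (hf u hu)).2) ?_
  intro u hu v hv huv
  by_contra hne
  have h1 := (mem_inter.1 (hf u hu)).1
  have h2 := (mem_inter.1 (hf v hv)).1
  rw [huv] at h1
  exact Finset.disjoint_left.1 (hB u (mem_filter.1 hu).1 v (mem_filter.1 hv).1 hne) h1 h2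

theorem tdm : TDM := by
  classical
  intro V _ _ ι T β R R' U U' k l hR hRU hRU' h hM
  obtain ⟨B, hB1, hB2, hB3⟩ := hM
  refine ⟨fun t => U'.filter fun u => (B u ∩ β t).Nonempty, h.tree, fun t => filter_subset _ _,
    ?_, ?_, ?_, fun t => (card_le U' B hB2 (β t)).trans (h.bag t), ?_⟩
  · intro u hu
    obtain ⟨v, hv⟩ := (hB1 u hu).1.1
    obtain ⟨t, ht⟩ := h.cover v ((hB1 u hu).2 hv)
    exact ⟨t, mem_filter.2 ⟨hu, v, mem_inter.2 ⟨hv, ht⟩⟩⟩
  · intro u v huv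
    obtain ⟨hu, hv⟩ := hRU' u v huv
    obtain ⟨a, ha, b, hb, hab⟩ := hB3 u hu v hv huv
    obtain ⟨t, h1, h2⟩ := h.edge a b hab
    exact ⟨t, mem_filter.2 ⟨hu, a, mem_inter.2 ⟨ha, h1⟩⟩, mem_filter.2 ⟨hv, b, mem_inter.2 ⟨hb, h2⟩⟩⟩
  · intro u
    by_cases hu : u ∈ U'
    swap
    · rintro ⟨x, hx⟩
      exact absurd (mem_filter.1 hx).1 hu
    rintro ⟨x, hx⟩ ⟨y, hy⟩
    set Big : Set ι := {t | u ∈ U'.filter fun u => (B u ∩ β t).Nonempty} with hBig
    have hmem : ∀ v ∈ B u, ∀ z, v ∈ β z → z ∈ Big := fun v hv z hz =>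
      mem_filter.2 ⟨hu, v, mem_inter.2 ⟨hv, hz⟩⟩
    have step : ∀ v (hv : v ∈ B u) z z' (hz : v ∈ β z) (hz' : v ∈ β z'),
        (T.induce Big).Reachable ⟨z, hmem v hv z hz⟩ ⟨z', hmem v hv z' hz'⟩ := by
      intro v hv z z' hz hz'
      have h1 := h.conn v ⟨z, hz⟩ ⟨z', hz'⟩
      let f : (T.induce {t | v ∈ β t}) →g (T.induce Big) :=
        { toFun := fun w => ⟨w.1, hmem v hv w.1 w.2⟩
          map_rel' := fun {a b} hab => hab }
      exact h1.map f
    obtain ⟨v, hv⟩ := (mem_filter.1 hx).2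
    obtain ⟨v', hv'⟩ := (mem_filter.1 hy).2
    rw [mem_inter] at hv hv'
    set P := (B u).filter (fun w => ∃ (z : ι) (_ : w ∈ β z) (hz : z ∈ Big),
      (T.induce Big).Reachable ⟨x, hx⟩ ⟨z, hz⟩) with hP
    have hPB : P = B u := by
      by_contra hne
      obtain ⟨p, hp, q, hq, hpq⟩ := (hB1 u hu).1.2 P (filter_subset _ _)
        ⟨v, mem_filter.2 ⟨hv.1, x, hv.2, hx, SimpleGraph.Reachable.refl _⟩⟩ hne
      rw [mem_sdiff] at hq
      obtain ⟨hpB, z, hz, hz2, hr⟩ := mem_filter.1 hp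
      obtain ⟨t', ht1, ht2⟩ := h.edge p q hpq
      exact hq.2 (mem_filter.2 ⟨hq.1, t', ht2, hmem p hpB t' ht1,
        hr.trans (step p hpB z t' hz ht1)⟩)
    have hv'P : v' ∈ P := by rw [hPB]; exact hv'.1
    obtain ⟨_, z, hz, hz2, hr⟩ := mem_filter.1 hv'P
    exact hr.trans (step v' hv'.1 z y hz hv'.2)
  · intro s t hst
    refine le_trans (Finset.card_le_card ?_) ((card_le U' B hB2 (β s ∩ β t)).trans (h.adh s t hst))
    intro u hu
    rw [mem_inter, mem_filter, mem_filter] at hu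
    exact mem_filter.2 ⟨hu.1.1, sep h hst (hB1 u hu.1.1).1 hu.1.2 hu.2.2⟩

end Pool.Agent.Helper74.RG3
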